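import Mathlib
import Pool.Agent.Y863.AA.Defs
import Pool.Agent.W25.IT.Rat

/-!
# The iterated equations `a^j p - b^j q = c_j` for almost all `c`: definitions and lemmas
-/

set_option autoImplicit false

namespace Pool.Agent.Y863.AR

open Finset Filter Pool.Agent.W25.IT.Rat

/-- `a ^ (j - 1) + a ^ (j - 2) b + ... + b ^ (j - 1)` -/
def sr (a b : ℤ) (j : ℕ) : ℤ := ∑ i ∈ range j, a ^ i * b ^ (j - 1 - i)

theorem cj_eq (a b c : ℤ) (j : ℕ) : cj a b c j = c * sr a b j := rfl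

theorem sr_nat (a b j : ℕ) : sr a b j = ((∑ i ∈ range j, a ^ i * b ^ (j - 1 - i) : ℕ) : ℤ) := by
  unfold sr; push_cast; rfl

theorem sr_pos {a b : ℕ} (ha : 1 ≤ a) (hb : 1 ≤ b) {j : ℕ} (hj : 1 ≤ j) : 0 < sr a b j := by
  rw [sr_nat]
  have : 0 < ∑ i ∈ range j, a ^ i * b ^ (j - 1 - i) :=
    sum_pos (fun i _ => by positivity) ⟨0, mem_range.2 (by omega)⟩
  exact_mod_cast this

/-- the product of the `sr a b j`, `1 ≤ j ≤ m` -/
def prR (a b m : ℕ) : ℕ := ∏ j ∈ range m, ∑ i ∈ range (j + 1), a ^ i * b ^ (j + 1 - 1 - i)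

theorem prR_pos {a b : ℕ} (ha : 1 ≤ a) (hb : 1 ≤ b) (m : ℕ) : 0 < prR a b m := by
  unfold prR
  refine prod_pos fun j _ => sum_pos (fun i _ => by positivity) ⟨0, mem_range.2 (by omega)⟩

theorem prR_dvd (a b m : ℕ) {j : ℕ} (h1 : 1 ≤ j) (h2 : j ≤ m) : sr a b j ∣ (prR a b m : ℤ) := by
  rw [sr_nat]
  have : (∑ i ∈ range j, a ^ i * b ^ (j - 1 - i)) ∣ prR a b m := by
    unfold prR
    obtain ⟨i, rfl⟩ : ∃ i, j = i + 1 := ⟨j - 1, by omega⟩
    exact dvd_prod_of_mem (fun j => ∑ i ∈ range (j + 1), a ^ i * b ^ (j + 1 - 1 - i))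
      (mem_range.2 (by omega))
  exact_mod_cast this

theorem prR_le {a b A : ℕ} (hA : 1 ≤ A) (ha : a ≤ A) (hb : b ≤ A) (m : ℕ) :
    prR a b m ≤ m ^ m * A ^ (m * m) := by
  unfold prR
  calc ∏ j ∈ range m, ∑ i ∈ range (j + 1), a ^ i * b ^ (j + 1 - 1 - i) ≤
        ∏ _j ∈ range m, m * A ^ m := by
        refine prod_le_prod' fun j hj => ?_
        have hj := mem_range.1 hj
        calc ∑ i ∈ range (j + 1), a ^ i * b ^ (j + 1 - 1 - i) ≤ ∑ _i ∈ range (j + 1), A ^ m := by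
              refine sum_le_sum fun i hi => ?_
              have hi := mem_range.1 hi
              calc a ^ i * b ^ (j + 1 - 1 - i) ≤ A ^ i * A ^ (j + 1 - 1 - i) :=
                    Nat.mul_le_mul (Nat.pow_le_pow_left ha _) (Nat.pow_le_pow_left hb _)
                _ = A ^ (i + (j + 1 - 1 - i)) := (pow_add _ _ _).symm
                _ ≤ A ^ m := Nat.pow_le_pow_right hA (by omega)
          _ = (j + 1) * A ^ m := by rw [sum_const, card_range, smul_eq_mul]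
          _ ≤ m * A ^ m := Nat.mul_le_mul_right _ (by omega)
    _ = (m * A ^ m) ^ m := by rw [prod_const, card_range]
    _ = m ^ m * A ^ (m * m) := by rw [mul_pow, ← pow_mul]

/-- the primes `q ∈ [y, x]` of the solutions of `a^j p - b^j q = c_j` -/
def PR (a b c : ℤ) (j : ℕ) (y x : ℝ) : Set ℕ :=
  {q : ℕ | (q.Prime ∧ ∃ p : ℕ, p.Prime ∧ a ^ j * p - b ^ j * q = cj a b c j) ∧ y ≤ q ∧ (q : ℝ) ≤ x}

theorem PR_finite (a b c : ℤ) (j : ℕ) (y x : ℝ) : (PR a b c j y x).Finite := by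
  refine (Set.finite_le_nat ⌊x⌋₊).subset fun q hq => ?_
  exact Nat.le_floor hq.2.2

/-- their number -/
noncomputable def cntR (a b c : ℤ) (j : ℕ) (y x : ℝ) : ℕ := (PR a b c j y x).ncard

theorem cntR_mono (a b c : ℤ) (j : ℕ) {y y' x : ℝ} (h : y' ≤ y) :
    cntR a b c j y x ≤ cntR a b c j y' x :=
  Set.ncard_le_ncard (fun _ hq => ⟨hq.1, h.trans hq.2.1, hq.2.2⟩) (PR_finite _ _ _ _ _ _)

/-- the hypotheses of the question for `c`, except `c ≠ 0` -/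
def Q0 (a b c : ℤ) : Prop := IsCoprime a c ∧ IsCoprime b c ∧ ¬ (Odd a ∧ Odd b ∧ Odd c)

theorem Q0_congr {a b c c' q : ℤ} (ha : a ∣ q) (hb : b ∣ q) (h2 : 2 ∣ q) (h : q ∣ c - c')
    (hQ : Q0 a b c') : Q0 a b c := by
  obtain ⟨h3, h4, h5⟩ := hQ
  have key : ∀ x : ℤ, x ∣ q → IsCoprime x c' → IsCoprime x c := by
    intro x hx hc
    obtain ⟨s, hs⟩ := hx.trans h
    have h6 : c = c' + x * s := by linarith
    rw [h6]
    exact hc.add_mul_left_right s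
  refine ⟨key a ha h3, key b hb h4, fun h6 => h5 ⟨h6.1, h6.2.1, ?_⟩⟩
  obtain ⟨s, hs⟩ := h2.trans h
  have h7 : c' = c - 2 * s := by linarith
  rw [h7]
  exact h6.2.2.sub_even (even_two_mul s)

/-- the exponents miss a class modulo every bad prime -/
def Miss {T : ℕ} (e : Fin T → ℕ) (a b c : ℤ) : Prop :=
  ∀ p : ℕ, p.Prime → 3 ≤ p → (p : ℤ) ∣ a - b → ¬ (p : ℤ) ∣ c → ∃ r : ℕ, ∀ g, ¬ e g ≡ r [MOD p]

open Classical in
/-- no `M + 1` of the exponents have pairwise good differences -/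
def NoClR {T : ℕ} (M : ℕ) (e : Fin T → ℕ) (a b c : ℤ) (Y y x : ℝ) : Prop :=
  ¬ ∃ S : Finset (Fin T), M + 1 ≤ S.card ∧ ∀ g ∈ S, ∀ h ∈ S, g < h →
    Y ≤ (cntR a b c (e h - e g) y x : ℝ)

theorem cnt_geR (F : Finset ℕ) (a b c : ℤ) (j : ℕ) (D β D' β' : ℤ) (hD : 0 < D) (y x : ℝ)
    (hrel : ∀ n : ℤ, a ^ j * (D' * n + β') - b ^ j * (D * n + β) = cj a b c j)
    (h : ∀ n ∈ F, (D * n + β).toNat.Prime ∧ (D' * n + β').toNat.Prime ∧
      y ≤ ((D * n + β : ℤ) : ℝ) ∧ ((D * n + β : ℤ) : ℝ) ≤ x) : F.card ≤ cntR a b c j y x := by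
  classical
  have hz : ∀ z : ℤ, z.toNat.Prime → ((z.toNat : ℕ) : ℤ) = z := by
    intro z hz
    apply Int.toNat_of_nonneg
    by_contra hneg
    push Not at hneg
    rw [Int.toNat_of_nonpos hneg.le] at hz
    exact Nat.not_prime_zero hz
  have hc : (F.image (fun n : ℕ => (D * n + β).toNat)).card = F.card := by
    apply Finset.card_image_of_injOn
    intro n hn n' hn' he
    have h1 : (D * n + β).toNat = (D * n' + β).toNat := he
    have h2 : D * n + β = D * n' + β := by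
      rw [← hz _ (h n hn).1, ← hz _ (h n' hn').1, h1]
    have h3 : D * (n : ℤ) = D * n' := by linarith
    exact_mod_cast mul_left_cancel₀ hD.ne' h3
  rw [← hc, ← Set.ncard_coe_finset]
  refine Set.ncard_le_ncard ?_ (PR_finite _ _ _ _ _ _)
  intro q hq
  rw [coe_image] at hq
  obtain ⟨n, hn, rfl⟩ := hq
  have hn := mem_coe.1 hn
  obtain ⟨h1, h2, h3, h4⟩ := h n hn
  have h5 := hz _ h1
  have h6 : (((D * n + β).toNat : ℕ) : ℝ) = ((D * n + β : ℤ) : ℝ) := by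
    rw [← h5]; push_cast; rfl
  refine ⟨⟨h1, (D' * n + β').toNat, h2, ?_⟩, ?_, ?_⟩
  · show a ^ j * (((D' * n + β').toNat : ℕ) : ℤ) - b ^ j * (((D * n + β).toNat : ℕ) : ℤ) = _
    rw [h5, hz _ h2]
    exact hrel n
  · show y ≤ (((D * n + β).toNat : ℕ) : ℝ)
    rw [h6]; exact h3
  · show (((D * n + β).toNat : ℕ) : ℝ) ≤ x
    rw [h6]; exact h4

end Pool.Agent.Y863.AR
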