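import Mathlib
import Pool.Agent.Y863.AA.Core
import Pool.Agent.Y863.AR.Defs

/-!
# The iterated equations `a^j p - b^j q = c_j` for almost all `c`: the core theorem at one scale

The coloured Maynard-Tao theorem with a constant below `4` in short windows
(`Pool.Agent.TH899.UG.NW.exactW`) is from the starting files.
-/

set_option autoImplicit false

namespace Pool.Agent.Y863.AR

open Finset Filter Pool.Agent.W25.IT Pool.Agent.W25.IT.Rat Pool.Agent.Y863.AA Nat

/-- the local condition at the base point -/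
theorem base_adm {a b : ℕ} {x : ℤ} (hab : IsCoprime (a : ℤ) b) (hQ : Q0 a b x) {T : ℕ}
    {e : Fin T → ℕ} (hE : Miss e a b x) {m : ℕ} (hem : ∀ g, e g ≤ m) {w : ℕ → ℤ}
    (hw : ∀ i < m + 2, (a : ℤ) * w (i + 1) = b * w i + 1) {p : ℕ} (hp : p.Prime) :
    ∃ n : ℤ, ∀ g, ¬ (p : ℤ) ∣ (a : ℤ) ^ (m + 2 - (e g + 1)) * (b : ℤ) ^ (e g + 1) * n +
      x * w (e g + 1) := by
  have hβ : ∀ i < m + 2, (a : ℤ) * (x * w (i + 1)) = b * (x * w i) + x := by
    intro i hi
    linear_combination x * hw i hi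
  refine rat_admissible (β := fun i => x * w i) hab hQ.1 hQ.2.1 hQ.2.2 hβ (fun g => e g + 1)
    (fun g => ⟨by omega, by have := hem g; omega⟩) hp ?_
  intro hp3 hp1 hpc
  obtain ⟨r, hr⟩ := hE p hp hp3 hp1 hpc
  refine rat_miss (J := m + 2) (β := fun i => x * w i) hβ (fun g => e g + 1)
    (fun g => by have := hem g; show e g + 1 ≤ m + 2; omega) hp
    (bad_not_dvd hab hp hp1).1 hp1 hpc (r + 1) (fun g h => hr g ?_)
  exact Nat.ModEq.add_right_cancel' 1 h

theorem D_rel (a b : ℤ) {m i j : ℕ} (h : i + j ≤ m) :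
    a ^ j * (a ^ (m + 2 - (i + j + 1)) * b ^ (i + j + 1)) =
      b ^ j * (a ^ (m + 2 - (i + 1)) * b ^ (i + 1)) := by
  have h1 : m + 2 - (i + 1) = j + (m + 2 - (i + j + 1)) := by omega
  have h2 : i + j + 1 = j + (i + 1) := by omega
  rw [h1, pow_add a, h2, pow_add b]
  ring

open Classical in
/-- **The core theorem.** -/
theorem coreR : ∃ c : ℝ, 0 < c ∧ c < 1 ∧ ∀ T M : ℕ, (4 - c) * M < T → ∀ (m : ℕ) (e : Fin T → ℕ),
    1 ≤ m → StrictMono e → (∀ g, e g ≤ m) → ∀ ε : ℝ, 0 < ε → ∃ L : ℕ, ∀ a b A : ℕ, 1 ≤ a → 1 ≤ b →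
    a ≤ A → b ≤ A → IsCoprime (a : ℤ) b → ∃ C : ℕ, 1 ≤ C ∧
    ∀ η : ℝ, 0 < η → η ≤ 1 → ∀ᶠ X : ℕ in atTop, ∀ (u : ℤ) (H : ℕ), L * A ^ ((m + 1) ^ 2) ≤ H →
      (C : ℤ) * (|u| + H) ≤ X →
      (((Ioc u (u + H)).filter (fun x : ℤ => Q0 a b x ∧ x ≠ 0 ∧ Miss e a b x ∧
        NoClR M e a b x ((X : ℝ) ^ (1 - η)) (X / C) X)).card : ℝ) ≤
      ε * (((Ioc u (u + H)).filter (fun x : ℤ => Q0 a b x)).card : ℝ) := by
  obtain ⟨c, hc, hc1, hex⟩ := Pool.Agent.TH899.UG.NW.exactW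
  refine ⟨c, hc, hc1, ?_⟩
  intro T M hTM m e hm1 he hem ε hε
  have hT : 1 ≤ T := by
    have h1 : (0 : ℝ) ≤ (4 - c) * M := mul_nonneg (by linarith) (Nat.cast_nonneg _)
    have h2 : (0 : ℝ) < T := lt_of_le_of_lt h1 hTM
    exact_mod_cast h2
  obtain ⟨K, hK, hex⟩ := hex (1 / 8) (1 / 4) le_rfl (by norm_num) le_rfl T M hT hTM
  have : Nonempty (Fin T) := ⟨⟨0, hT⟩⟩
  have : Nonempty (Fin K) := ⟨⟨0, hK⟩⟩
  obtain ⟨n, hn, hcopy⟩ := copy ((Fin T × Fin K) × (Fin T × Fin K)) (Finset (Fin T × Fin T)) ε hε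
  refine ⟨(n * m ^ m * K + 1) * (T * K + 2)!, fun a b A ha hb haA hbA hab => ?_⟩
  have hA1 : 1 ≤ A := ha.trans haA
  have haz : (1 : ℤ) ≤ a := by exact_mod_cast ha
  have hbz : (1 : ℤ) ≤ b := by exact_mod_cast hb
  obtain ⟨w, hw⟩ := exists_beta (a : ℤ) b 1 (by omega) hab (m + 2)
  obtain ⟨sm, hsm⟩ : ∃ sm : ℕ, sm = ∑ i ∈ range (m + 3), (w i).natAbs := ⟨_, rfl⟩
  have hwm : ∀ i, i ≤ m + 2 → |w i| ≤ (sm : ℤ) := by
    intro i hi
    rw [hsm, Int.abs_eq_natAbs]
    exact_mod_cast single_le_sum (f := fun i => (w i).natAbs) (fun _ _ => Nat.zero_le _)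
      (mem_range.2 (by omega : i < m + 3))
  have hdm : 1 ≤ A ^ (m + 2) := Nat.one_le_pow _ _ hA1
  refine ⟨100 * (sm + 2) * A ^ (m + 2), Nat.succ_le_of_lt (by positivity), fun η hη hη1 => ?_⟩
  have hdivt : Tendsto (fun X : ℕ => X / A ^ (m + 2)) atTop atTop := by
    refine tendsto_atTop.2 fun B => ?_
    filter_upwards [eventually_ge_atTop (B * A ^ (m + 2))] with X hX
    exact (Nat.le_div_iff_mul_le (by omega)).2 hX
  filter_upwards [hdivt.eventually (hex (A ^ (m + 2)) (η / 2) (by positivity)),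
    scale A (m + 2) hA1 η hη hη1, eventually_ge_atTop 1, hdivt.eventually (eventually_ge_atTop 1)]
    with X hN hsc hX1 hN1 u H hH hCX
  obtain ⟨N, hNdef⟩ : ∃ N : ℕ, N = X / A ^ (m + 2) := ⟨_, rfl⟩
  rw [← hNdef] at hN hsc hN1
  by_contra hcon
  push Not at hcon
  obtain ⟨q, hq⟩ : ∃ q : ℕ, q = a * b * (T * K + 2)! := ⟨_, rfl⟩
  have hfac : 1 ≤ (T * K + 2)! := Nat.succ_le_of_lt (Nat.factorial_pos _)
  have hq1 : 1 ≤ q := by rw [hq]; exact Nat.mul_pos (Nat.mul_pos ha hb) hfac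
  have haq : (a : ℤ) ∣ (q : ℤ) := by
    rw [hq]; push_cast; rw [mul_assoc]; exact Dvd.intro _ rfl
  have hbq : (b : ℤ) ∣ (q : ℤ) := by
    rw [hq]; push_cast; rw [mul_assoc]; exact Dvd.dvd.mul_left (Dvd.intro _ rfl) _
  have h2q : (2 : ℤ) ∣ (q : ℤ) := by
    have h2 : 2 ∣ q := by
      rw [hq]; exact Dvd.dvd.mul_left (Nat.dvd_factorial (by norm_num) (by omega)) _
    exact_mod_cast h2
  obtain ⟨P, hP⟩ : ∃ P : ℕ, P = prR a b m := ⟨_, rfl⟩
  have hP1 : 0 < P := by rw [hP]; exact prR_pos ha hb m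
  -- the size conditions
  have hqA : q ≤ (T * K + 2)! * A ^ 2 := by
    rw [hq]
    calc a * b * (T * K + 2)! ≤ A * A * (T * K + 2)! := Nat.mul_le_mul_right _ (Nat.mul_le_mul haA hbA)
      _ = (T * K + 2)! * A ^ 2 := by ring
  have hsize1 : q * (n * (P * K * A ^ m)) ≤ H := by
    refine le_trans ?_ hH
    have h1 : P ≤ m ^ m * A ^ (m * m) := by rw [hP]; exact prR_le hA1 haA hbA m
    calc q * (n * (P * K * A ^ m)) ≤
          (T * K + 2)! * A ^ 2 * (n * (m ^ m * A ^ (m * m) * K * A ^ m)) :=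
            Nat.mul_le_mul hqA (Nat.mul_le_mul_left _ (Nat.mul_le_mul_right _
              (Nat.mul_le_mul_right _ h1)))
      _ = (n * m ^ m * K) * (T * K + 2)! * A ^ (m * m + m + 2) := by
            rw [pow_add, pow_add]; ring
      _ ≤ (n * m ^ m * K + 1) * (T * K + 2)! * A ^ ((m + 1) ^ 2) := by
            refine Nat.mul_le_mul (Nat.mul_le_mul_right _ (Nat.le_succ _))
              (Nat.pow_le_pow_right hA1 ?_)
            nlinarith
  have hsize2 : q ≤ H := by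
    refine le_trans hqA (le_trans ?_ hH)
    calc (T * K + 2)! * A ^ 2 = 1 * (T * K + 2)! * A ^ 2 := by ring
      _ ≤ (n * m ^ m * K + 1) * (T * K + 2)! * A ^ ((m + 1) ^ 2) := by
            refine Nat.mul_le_mul (Nat.mul_le_mul_right _ (by omega))
              (Nat.pow_le_pow_right hA1 ?_)
            nlinarith
  -- the shape
  obtain ⟨v, hv⟩ : ∃ v : (Fin T × Fin K) × (Fin T × Fin K) → ℤ, v = fun z =>
    if z.1.1 < z.2.1 then (P : ℤ) / sr a b (e z.2.1 - e z.1.1) *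
      ((a : ℤ) ^ (e z.2.1 - e z.1.1) * ((z.2.2 : ℕ) : ℤ) -
        (b : ℤ) ^ (e z.2.1 - e z.1.1) * ((z.1.2 : ℕ) : ℤ)) else 0 := ⟨_, rfl⟩
  have hej : ∀ g h : Fin T, g < h → 1 ≤ e h - e g ∧ e h - e g ≤ m := by
    intro g h hgh
    have h1 := he hgh
    have h2 := hem h
    constructor <;> omega
  have hvb : ∀ z, |v z| ≤ ((P * K * A ^ m : ℕ) : ℤ) := by
    intro z
    rw [hv]
    simp only
    split_ifs with hz
    · obtain ⟨hj1, hj2⟩ := hej _ _ hz
      obtain ⟨j, hj⟩ : ∃ j, j = e z.2.1 - e z.1.1 := ⟨_, rfl⟩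
      rw [← hj] at hj1 hj2 ⊢
      have hg := sr_pos ha hb hj1
      rw [abs_mul]
      have h1 : |(P : ℤ) / sr a b j| ≤ P := by
        rw [abs_of_nonneg (Int.ediv_nonneg (Nat.cast_nonneg _) hg.le)]
        exact Int.ediv_le_self _ (Nat.cast_nonneg _)
      have hk1 : ((z.2.2 : ℕ) : ℤ) ≤ K := by exact_mod_cast z.2.2.2.le
      have hk0 : (0 : ℤ) ≤ ((z.2.2 : ℕ) : ℤ) := Nat.cast_nonneg _
      have hi1 : ((z.1.2 : ℕ) : ℤ) ≤ K := by exact_mod_cast z.1.2.2.le
      have hi0 : (0 : ℤ) ≤ ((z.1.2 : ℕ) : ℤ) := Nat.cast_nonneg _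
      have hKz : (0 : ℤ) ≤ (K : ℤ) := Nat.cast_nonneg _
      have hpw : ∀ y : ℕ, 1 ≤ y → y ≤ A → (0 : ℤ) ≤ (y : ℤ) ^ j ∧ (y : ℤ) ^ j ≤ (A : ℤ) ^ m := by
        intro y hy hyA
        constructor
        · positivity
        · exact_mod_cast (Nat.pow_le_pow_left hyA j).trans (Nat.pow_le_pow_right hA1 hj2)
      obtain ⟨ha1, ha2⟩ := hpw a ha haA
      obtain ⟨hb1, hb2⟩ := hpw b hb hbA
      have hAm : (0 : ℤ) ≤ (A : ℤ) ^ m := by positivity
      have h2 : |(a : ℤ) ^ j * ((z.2.2 : ℕ) : ℤ) - (b : ℤ) ^ j * ((z.1.2 : ℕ) : ℤ)| ≤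
          K * (A : ℤ) ^ m := by
        have h3 : (a : ℤ) ^ j * ((z.2.2 : ℕ) : ℤ) ≤ (A : ℤ) ^ m * K := mul_le_mul ha2 hk1 hk0 hAm
        have h4 : (b : ℤ) ^ j * ((z.1.2 : ℕ) : ℤ) ≤ (A : ℤ) ^ m * K := mul_le_mul hb2 hi1 hi0 hAm
        have h5 : (0 : ℤ) ≤ (a : ℤ) ^ j * ((z.2.2 : ℕ) : ℤ) := mul_nonneg ha1 hk0
        have h6 : (0 : ℤ) ≤ (b : ℤ) ^ j * ((z.1.2 : ℕ) : ℤ) := mul_nonneg hb1 hi0
        rw [abs_le]
        constructor <;> linarith
      calc |(P : ℤ) / sr a b j| *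
            |(a : ℤ) ^ j * ((z.2.2 : ℕ) : ℤ) - (b : ℤ) ^ j * ((z.1.2 : ℕ) : ℤ)|
          ≤ P * (K * (A : ℤ) ^ m) := mul_le_mul h1 h2 (abs_nonneg _) (Nat.cast_nonneg _)
        _ = _ := by push_cast; ring
    · rw [abs_zero]; exact Nat.cast_nonneg _
  obtain ⟨x, l, G, hl1, hln, hx⟩ := hcopy (fun x => Q0 a b x) q u
    (fun x y _ _ hxy hy => Q0_congr haq hbq h2q hxy hy) hq1 v
    (P * K * A ^ m) hvb H ((Nat.le_div_iff_mul_le (by omega)).2 (by
      calc n * (P * K * A ^ m) * q = q * (n * (P * K * A ^ m)) := by ring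
        _ ≤ H := hsize1)) hsize2 _ (filter_subset _ _) (by
      intro x hx
      exact (mem_filter.1 hx).2.1)
    (fun x => univ.filter (fun z : Fin T × Fin T => z.1 < z.2 ∧
      (X : ℝ) ^ (1 - η) ≤ (cntR a b x (e z.2 - e z.1)
        (X / ((100 * (sm + 2) * A ^ (m + 2) : ℕ) : ℝ)) X : ℝ))) hcon
  -- the base point
  have hx0 := hx ((Classical.arbitrary _, Classical.arbitrary _),
    (Classical.arbitrary _, Classical.arbitrary _))
  have hv0 : v ((Classical.arbitrary (Fin T), Classical.arbitrary (Fin K)),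
      (Classical.arbitrary (Fin T), Classical.arbitrary (Fin K))) = 0 := by
    rw [hv]; simp
  rw [hv0, mul_zero, mul_zero, add_zero] at hx0
  obtain ⟨hxB, hxG⟩ := hx0
  obtain ⟨hxI, hxQ, hx0, hxE, hxN⟩ := mem_filter.1 hxB
  have hxabs : |x| ≤ |u| + H := by
    have h1 := mem_Ioc.1 hxI
    rw [abs_le]
    have h2 := abs_le.1 (le_refl |u|)
    constructor
    · have : (0 : ℤ) ≤ H := Nat.cast_nonneg _
      linarith [h2.1]
    · linarith [h2.2]
  -- the forms
  obtain ⟨D, hD⟩ : ∃ D : Fin T → ℤ, D = fun g =>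
    (a : ℤ) ^ (m + 2 - (e g + 1)) * (b : ℤ) ^ (e g + 1) := ⟨_, rfl⟩
  obtain ⟨β, hβ⟩ : ∃ β : Fin T → Fin K → ℤ, β = fun (g : Fin T) (i : Fin K) =>
    x * w (e g + 1) + l * (q * (P * ((i : ℕ) : ℤ))) := ⟨_, rfl⟩
  have hcross : ∀ (g h : Fin T) (i k : Fin K), g < h →
      (a : ℤ) ^ (e h - e g) * β h k - (b : ℤ) ^ (e h - e g) * β g i =
        cj a b (x + l * (q * v ((g, i), (h, k)))) (e h - e g) := by
    intro g h i k hgh
    obtain ⟨hj1, hj2⟩ := hej g h hgh
    have h0 : e h = e g + (e h - e g) := by have := he hgh; omega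
    have h1 := beta_iter hw (e g + 1) (e h - e g) (by have := hem h; omega)
    have h2 : (P : ℤ) = sr a b (e h - e g) * ((P : ℤ) / sr a b (e h - e g)) := by
      rw [hP]; exact (Int.mul_ediv_cancel' (prR_dvd a b m hj1 hj2)).symm
    have h3 : e g + 1 + (e h - e g) = e h + 1 := by omega
    rw [h3, cj_eq] at h1
    rw [hβ, cj_eq, hv]
    simp only [if_pos hgh]
    generalize (P : ℤ) / sr a b (e h - e g) = R at h2 ⊢
    generalize e h - e g = j at h1 h2 ⊢
    linear_combination x * h1 + (l : ℤ) * q * ((a : ℤ) ^ j * ((k : ℕ) : ℤ) -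
      (b : ℤ) ^ j * ((i : ℕ) : ℤ)) * h2
  have hDrel : ∀ g h : Fin T, g < h →
      (a : ℤ) ^ (e h - e g) * D h = (b : ℤ) ^ (e h - e g) * D g := by
    intro g h hgh
    have h0 : e h = e g + (e h - e g) := by have := he hgh; omega
    have h1 := D_rel (a : ℤ) b (m := m) (i := e g) (j := e h - e g) (by have := hem h; omega)
    rw [← h0] at h1
    rw [hD]
    exact h1
  have hbb : ∀ g i, 100 * |β g i| ≤ N := by
    intro g i
    have h1 : |β g i| ≤ (|u| + H) * (sm + 1) := by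
      rw [hβ]
      have h2 : |x * w (e g + 1)| ≤ (|u| + H) * sm := by
        rw [abs_mul]
        exact mul_le_mul hxabs (hwm _ (by have := hem g; omega)) (abs_nonneg _) (by positivity)
      have h3 : |(l : ℤ) * (q * (P * ((i : ℕ) : ℤ)))| ≤ H := by
        rw [abs_of_nonneg (by positivity)]
        have h4 : l * (q * (P * (i : ℕ))) ≤ H := by
          refine le_trans ?_ hsize1
          calc l * (q * (P * (i : ℕ))) ≤ n * (q * (P * K)) :=
                Nat.mul_le_mul hln (Nat.mul_le_mul_left _ (Nat.mul_le_mul_left _ i.2.le))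
            _ = q * (n * (P * K * 1)) := by ring
            _ ≤ q * (n * (P * K * A ^ m)) :=
                Nat.mul_le_mul_left _ (Nat.mul_le_mul_left _ (Nat.mul_le_mul_left _
                  (Nat.one_le_pow _ _ hA1)))
        exact_mod_cast h4
      have h5 : (0 : ℤ) ≤ |u| := abs_nonneg _
      calc |x * w (e g + 1) + l * (q * (P * ((i : ℕ) : ℤ)))| ≤ _ + _ := abs_add_le _ _
        _ ≤ (|u| + H) * sm + H := add_le_add h2 h3
        _ ≤ (|u| + H) * (sm + 1) := by linarith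
    have h2 : (100 * ((|u| + H) * (sm + 1))) * (A : ℤ) ^ (m + 2) ≤ X := by
      refine le_trans ?_ hCX
      push_cast
      have h3 : (0 : ℤ) ≤ (|u| + H) * (A : ℤ) ^ (m + 2) := by positivity
      nlinarith
    have h4 : (100 * ((|u| + H) * (sm + 1))) ≤ (N : ℤ) := by
      have h5 : (N : ℤ) = (X : ℤ) / (A : ℤ) ^ (m + 2) := by rw [hNdef]; push_cast; rfl
      rw [h5]
      exact (Int.le_ediv_iff_mul_le (by exact_mod_cast hdm)).2 h2
    linarith
  have hN0 : (0 : ℝ) < N := by exact_mod_cast hN1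
  have hbr : ∀ g i, |(β g i : ℝ)| ≤ N / 100 := by
    intro g i
    have h1 : (100 : ℝ) * |(β g i : ℝ)| ≤ N := by
      have h2 := hbb g i
      have h3 : ((100 * |β g i| : ℤ) : ℝ) ≤ N := by exact_mod_cast h2
      rw [Int.cast_mul, Int.cast_abs] at h3
      exact_mod_cast h3
    linarith
  have hpowle : ∀ g : Fin T, (1 : ℤ) ≤ D g ∧ D g ≤ (A : ℤ) ^ (m + 2) := by
    intro g
    have hDg : D g = (a : ℤ) ^ (m + 2 - (e g + 1)) * (b : ℤ) ^ (e g + 1) := by rw [hD]
    rw [hDg]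
    constructor
    · exact_mod_cast Nat.mul_pos (Nat.one_le_pow (m + 2 - (e g + 1)) _ ha)
        (Nat.one_le_pow (e g + 1) _ hb)
    · have h1 : a ^ (m + 2 - (e g + 1)) * b ^ (e g + 1) ≤ A ^ (m + 2) := by
        calc a ^ (m + 2 - (e g + 1)) * b ^ (e g + 1) ≤ A ^ (m + 2 - (e g + 1)) * A ^ (e g + 1) :=
              Nat.mul_le_mul (Nat.pow_le_pow_left haA _) (Nat.pow_le_pow_left hbA _)
          _ = A ^ (m + 2) := by
              rw [← pow_add]
              congr 1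
              have := hem g
              omega
      exact_mod_cast h1
  have hvalue : ∀ g i, ∀ y : ℝ, (N : ℝ) / 16 ≤ y →
      (N : ℝ) / 30 ≤ (D g : ℝ) * y + (β g i : ℝ) := by
    intro g i y hy
    have h1 := abs_le.1 (hbr g i)
    have h2 : (1 : ℝ) ≤ (D g : ℝ) := by exact_mod_cast (hpowle g).1
    have h3 : y ≤ (D g : ℝ) * y := le_mul_of_one_le_left (by
      have : (0 : ℝ) ≤ (N : ℝ) / 16 := by positivity
      linarith) h2
    linarith [h1.1]
  obtain ⟨S, σ, hS, hcard⟩ := hN (fun g _ => D g) β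
    (fun g i => by have := (hpowle g).1; omega)
    (fun g i => by
      rw [abs_of_nonneg (by have := (hpowle g).1; omega)]
      have := (hpowle g).2
      push_cast
      exact this)
    (fun g i => by
      have h1 := hbb g i
      have h2 : (0 : ℤ) ≤ |β g i| := abs_nonneg _
      have h3 : (0 : ℤ) ≤ N := Nat.cast_nonneg _
      linarith)
    (fun g i y hy _ => hvalue g i y hy)
    (by
      -- injectivity
      have hlt : ∀ (g h : Fin T) (i k : Fin K), g < h → (D g, β g i) ≠ (D h, β h k) := by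
        intro g h i k hgh heq
        obtain ⟨h1, h2⟩ := Prod.ext_iff.1 heq
        simp only at h1 h2
        have h3 := hcross g h i k hgh
        have h4 := hDrel g h hgh
        obtain ⟨hj1, hj2⟩ := hej g h hgh
        rw [← h1] at h4
        have h5 := mul_right_cancel₀ (by have := (hpowle g).1; omega : D g ≠ 0) h4
        rw [h5, ← h2, sub_self, cj_eq] at h3
        have h9 := (mem_filter.1 (hx ((g, i), (h, k))).1).2.2.1
        rcases mul_eq_zero.1 h3.symm with h10 | h10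
        · exact h9 h10
        · exact (sr_pos ha hb hj1).ne' h10
      rintro ⟨g, i⟩ ⟨h, k⟩ heq
      simp only at heq
      rcases lt_trichotomy g h with hgh | hgh | hgh
      · exact absurd heq (hlt g h i k hgh)
      · subst hgh
        have h2 := (Prod.ext_iff.1 heq).2
        rw [hβ] at h2
        simp only at h2
        have h3 := add_left_cancel h2
        have h4 : (l : ℤ) ≠ 0 := by exact_mod_cast (by omega : l ≠ 0)
        have h5 : (q : ℤ) ≠ 0 := by exact_mod_cast (by omega : q ≠ 0)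
        have h6 : (P : ℤ) ≠ 0 := by exact_mod_cast hP1.ne'
        have h7 := mul_left_cancel₀ h6 (mul_left_cancel₀ h5 (mul_left_cancel₀ h4 h3))
        have h8 : i = k := Fin.ext (by exact_mod_cast h7)
        rw [h8]
      · exact absurd heq.symm (hlt h g k i hgh))
    (by
      intro p hp
      have hpp := Nat.prime_iff_prime_int.1 hp
      by_cases hpq : p ∣ q
      · obtain ⟨y, hy⟩ := base_adm hab hxQ hxE hem hw hp
        refine ⟨y, fun g i hdv => hy g ?_⟩
        have h1 : (p : ℤ) ∣ l * (q * (P * ((i : ℕ) : ℤ))) :=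
          Dvd.dvd.mul_left (Dvd.dvd.mul_right (by exact_mod_cast hpq) _) _
        have h2 : D g * y + β g i = ((a : ℤ) ^ (m + 2 - (e g + 1)) * (b : ℤ) ^ (e g + 1) * y +
            x * w (e g + 1)) + l * (q * (P * ((i : ℕ) : ℤ))) := by
          rw [hβ, hD]; ring
        rw [h2] at hdv
        exact (dvd_add_left h1).1 hdv
      · have hpa : ¬ p ∣ a := fun h => hpq (by
          rw [hq]; exact Dvd.dvd.mul_right (Dvd.dvd.mul_right h _) _)
        have hpb : ¬ p ∣ b := fun h => hpq (by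
          rw [hq]; exact Dvd.dvd.mul_right (Dvd.dvd.mul_left h _) _)
        have hpK : T * K < p := by
          by_contra hle
          push Not at hle
          apply hpq
          rw [hq]
          exact Dvd.dvd.mul_left (Nat.dvd_factorial hp.pos (by omega)) _
        obtain ⟨y, hy⟩ := avoid (ι := Fin T × Fin K) (fun z => D z.1)
          (fun z => β z.1 z.2) hp (by
            intro z hz
            rw [hD] at hz
            rcases hpp.dvd_or_dvd hz with h1 | h1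
            · exact hpa (by exact_mod_cast hpp.dvd_of_dvd_pow h1)
            · exact hpb (by exact_mod_cast hpp.dvd_of_dvd_pow h1)) (by
            rw [Fintype.card_prod, Fintype.card_fin, Fintype.card_fin]; exact hpK)
        exact ⟨y, fun g i => hy (g, i)⟩)
  -- the clique
  apply hxN
  refine ⟨S, hS, fun g hg h hh hgh => ?_⟩
  have hz := (hx ((g, σ g), (h, σ h))).2
  have hmem : (g, h) ∈ G := by
    rw [← hz]
    refine mem_filter.2 ⟨mem_univ _, hgh, ?_⟩
    refine hsc.2.trans (hcard.trans ?_)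
    rw [Nat.cast_le]
    refine cnt_geR _ (a : ℤ) b _ (e h - e g) (D g) (β g (σ g)) (D h) (β h (σ h))
      (by have := (hpowle g).1; omega) _ _ ?_ ?_
    · intro y
      have hcr := hcross g h (σ g) (σ h) hgh
      have hdr := hDrel g h hgh
      rw [← hcr]
      linear_combination y * hdr
    intro y hy
    obtain ⟨hyI, hy1, hy2, hy3⟩ := mem_filter.1 hy
    have hyv := hvalue g (σ g) y (by linarith)
    have h6 : ((D g * y + β g (σ g) : ℤ) : ℝ) = (D g : ℝ) * y + (β g (σ g) : ℝ) := by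
      push_cast; ring
    refine ⟨hy3 g hg, hy3 h hh, ?_, ?_⟩
    · rw [h6]
      refine le_trans ?_ hyv
      have h7 : (X : ℝ) ≤ N * (2 * (A : ℝ) ^ (m + 2)) := (div_le_iff₀ (by positivity)).1 hsc.1
      have h8 : (0 : ℝ) < ((100 * (sm + 2) * A ^ (m + 2) : ℕ) : ℝ) := by positivity
      rw [div_le_iff₀ h8]
      have h9 : (0 : ℝ) ≤ (N : ℝ) * (A : ℝ) ^ (m + 2) := by positivity
      have h10 : (0 : ℝ) ≤ (sm : ℝ) * ((N : ℝ) * (A : ℝ) ^ (m + 2)) := by positivity
      push_cast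
      nlinarith
    · rw [h6]
      have h7 : (D g : ℝ) ≤ (A : ℝ) ^ (m + 2) := by exact_mod_cast (hpowle g).2
      have h8 : (N : ℝ) * (A : ℝ) ^ (m + 2) ≤ X := by
        have := Nat.div_mul_le_self X (A ^ (m + 2))
        rw [← hNdef] at this
        exact_mod_cast this
      have h9 := abs_le.1 (hbr g (σ g))
      have h10 : (1 : ℝ) ≤ (A : ℝ) ^ (m + 2) := by exact_mod_cast hdm
      have h11 : (D g : ℝ) * y ≤ (A : ℝ) ^ (m + 2) * (1 / 4 * N) :=
        mul_le_mul h7 hy2 (Nat.cast_nonneg _) (by positivity)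
      have h12 : (N : ℝ) ≤ N * (A : ℝ) ^ (m + 2) := le_mul_of_one_le_right hN0.le h10
      linarith [h9.2]
  rw [← hxG] at hmem
  have h1 := (mem_filter.1 hmem).2.2
  exact h1

end Pool.Agent.Y863.AR
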