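import Mathlib
import Pool.Agent.Y863.AA.Fin
import Pool.Agent.Y863.AR.CoreR

/-!
# One of the first three iterated equations, for almost all `c`
-/

set_option autoImplicit false
set_option maxHeartbeats 400000

namespace Pool.Agent.Y863.AR

open Finset Filter Topology Pool.Agent.W25.IT Pool.Agent.W25.IT.Rat Pool.Agent.Y863.AA
  Pool.Agent.H732R3.BigQ

theorem not_goodR {a b c : ℤ} {j : ℕ} (h : ¬ GoodEq a b c j) (C : ℕ) :
    ∀ᶠ η in 𝓝[>] (0 : ℝ), ∀ᶠ X : ℕ in atTop, (cntR a b c j (X / C) X : ℝ) < (X : ℝ) ^ (1 - η) := by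
  have hnb : ¬ Big {q : ℕ | q.Prime ∧ ∃ p : ℕ, p.Prime ∧ a ^ j * p - b ^ j * q = cj a b c j} :=
    fun hb => h (goodEq_of_big hb)
  unfold Big at hnb
  push Not at hnb
  obtain ⟨η, hη, hnb⟩ := hnb
  filter_upwards [Ioc_mem_nhdsGT hη] with η' hη'
  filter_upwards [tendsto_natCast_atTop_atTop.eventually hnb, eventually_ge_atTop 1] with X hX hX1
  have hX1' : (1 : ℝ) ≤ X := by exact_mod_cast hX1
  calc (cntR a b c j (X / C) X : ℝ) ≤ ({n : ℕ | n ∈ {q : ℕ | q.Prime ∧ ∃ p : ℕ, p.Prime ∧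
        a ^ j * p - b ^ j * q = cj a b c j} ∧ (n : ℝ) ≤ X}.ncard : ℝ) := by
        rw [Nat.cast_le]
        refine Set.ncard_le_ncard ?_ (fin_le _ _)
        intro q hq
        exact ⟨hq.1, hq.2.2⟩
    _ < (X : ℝ) ^ (1 - η) := hX
    _ ≤ (X : ℝ) ^ (1 - η') := Real.rpow_le_rpow_of_exponent_le hX1' (by linarith [hη'.2])

open Classical in
/-- no `M + 1` of the exponents have pairwise good differences -/
def NoGR {T : ℕ} (M : ℕ) (e : Fin T → ℕ) (a b c : ℤ) : Prop :=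
  ¬ ∃ S : Finset (Fin T), M + 1 ≤ S.card ∧ ∀ g ∈ S, ∀ h ∈ S, g < h → GoodEq a b c (e h - e g)

open Classical in
theorem passR (I : Finset ℤ) (T M : ℕ) (a b : ℤ) (e : Fin T → ℕ) (P : ℤ → Prop) (C : ℕ) (B : ℝ)
    (h : ∀ η : ℝ, 0 < η → η ≤ 1 → ∀ᶠ X : ℕ in atTop, ((I.filter (fun s => P s ∧
      NoClR M e a b s ((X : ℝ) ^ (1 - η)) (X / C) X)).card : ℝ) ≤ B) :
    ((I.filter (fun s => P s ∧ NoGR M e a b s)).card : ℝ) ≤ B := by
  have h1 : ∀ᶠ η in 𝓝[>] (0 : ℝ), ∀ s ∈ I, ∀ z : Fin T × Fin T,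
      ¬ GoodEq a b s (e z.2 - e z.1) →
      ∀ᶠ X : ℕ in atTop, (cntR a b s (e z.2 - e z.1) (X / C) X : ℝ) < (X : ℝ) ^ (1 - η) := by
    rw [Filter.eventually_all_finset]
    intro s _
    rw [Filter.eventually_all]
    intro z
    by_cases hg : GoodEq a b s (e z.2 - e z.1)
    · exact Eventually.of_forall fun η hn => absurd hg hn
    · filter_upwards [not_goodR hg C] with η hη _
      exact hη
  obtain ⟨η, h2, hη0, hη1⟩ := (h1.and (Ioc_mem_nhdsGT (zero_lt_one' ℝ))).exists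
  have h3 : ∀ᶠ X : ℕ in atTop, ∀ s ∈ I, ∀ z : Fin T × Fin T,
      ¬ GoodEq a b s (e z.2 - e z.1) →
      (cntR a b s (e z.2 - e z.1) (X / C) X : ℝ) < (X : ℝ) ^ (1 - η) := by
    rw [Filter.eventually_all_finset]
    intro s hs
    rw [Filter.eventually_all]
    intro z
    by_cases hg : GoodEq a b s (e z.2 - e z.1)
    · exact Eventually.of_forall fun η hn => absurd hg hn
    · filter_upwards [h2 s hs z hg] with X hX _
      exact hX
  obtain ⟨X, hX1, hX2⟩ := (h3.and (h η hη0 hη1)).exists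
  refine le_trans ?_ hX2
  rw [Nat.cast_le]
  apply card_le_card
  intro s hs
  obtain ⟨hsI, hsP, hsN⟩ := mem_filter.1 hs
  refine mem_filter.2 ⟨hsI, hsP, ?_⟩
  rintro ⟨S, hS, hcl⟩
  refine hsN ⟨S, hS, fun g hg k hk hgk => ?_⟩
  by_contra hng
  have h4 := hX1 s hsI (g, k) hng
  have h5 := hcl g hg k hk hgk
  exact absurd h5 (not_le.2 h4)

/-! ## Four exponents -/

theorem miss_of {a b c : ℤ} (e : Fin 4 → ℕ) (r : ℕ)
    (he : ∀ p : ℕ, p.Prime → 3 ≤ p → (p : ℤ) ∣ a - b → ¬ (p : ℤ) ∣ c →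
      ∀ g, ((e g : ℤ) - r) ≠ 0 ∧ |(e g : ℤ) - r| < p) : Miss e a b c := by
  intro p hp hp3 hpd hpc
  refine ⟨r, fun g hg => ?_⟩
  have hpp := Nat.prime_iff_prime_int.1 hp
  have h1 : ((e g : ℕ) : ℤ) ≡ ((r : ℕ) : ℤ) [ZMOD p] := (Int.natCast_modEq_iff).2 hg
  have h2 := Int.modEq_iff_dvd.1 h1.symm
  obtain ⟨h4, h5⟩ := he p hp hp3 hpd hpc g
  exact small_dvd hp ((e g : ℤ) - r) 1 (fun h => hpp.not_isUnit (isUnit_of_dvd_one h))
    (by rw [mul_one]; exact h2) h4 h5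

theorem miss0 {a b c : ℤ} (h3 : ¬ (3 ∣ a - b ∧ ¬ 3 ∣ c)) : Miss E0 a b c := by
  refine miss_of E0 4 fun p hp hp3 hpd hpc g => ?_
  have hp5 : 5 ≤ p := by
    by_contra hlt
    have h4 : p = 3 ∨ p = 4 := by omega
    rcases h4 with rfl | rfl
    · exact h3 ⟨by exact_mod_cast hpd, fun h5 => hpc (by exact_mod_cast h5)⟩
    · exact absurd hp (by norm_num)
  have h4 : ((E0 g : ℕ) : ℤ) ≤ 3 := by
    have : E0 g ≤ 3 := by revert g; decide
    exact_mod_cast this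
  have h5 : (0 : ℤ) ≤ ((E0 g : ℕ) : ℤ) := Nat.cast_nonneg _
  refine ⟨by push_cast; omega, ?_⟩
  rw [abs_lt]
  push_cast
  constructor <;> omega

theorem miss1 {a b c : ℤ} : Miss E1 a b c := by
  refine miss_of E1 2 fun p hp hp3 hpd hpc g => ?_
  have h4 : E1 g = 0 ∨ E1 g = 1 ∨ E1 g = 3 ∨ E1 g = 4 := by revert g; decide
  rcases h4 with h4 | h4 | h4 | h4 <;> rw [h4] <;> refine ⟨by norm_num, ?_⟩ <;> rw [abs_lt] <;>
    push_cast <;> constructor <;> omega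

open Classical in
/-- the number of the equations -/
noncomputable def RR (a b c : ℤ) : ℕ := if 3 ∣ a - b ∧ ¬ 3 ∣ c then 4 else 3

open Classical in
theorem noclR_of {T : ℕ} (e : Fin T → ℕ) (a b c : ℤ) (R : ℕ) (Y y y' x : ℝ) (hy : y ≤ y')
    (he : ∀ g h : Fin T, g < h → 1 ≤ e h - e g ∧ e h - e g ≤ R)
    (h : ∀ j : ℕ, 1 ≤ j → j ≤ R → (cntR a b c j y x : ℝ) < Y) : NoClR 1 e a b c Y y' x := by
  rintro ⟨S, hS, hcl⟩
  obtain ⟨g, hg, k, hk, hgk⟩ := two_of_card S hS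
  have h1 := hcl g hg k hk hgk
  obtain ⟨h2, h3⟩ := he g k hgk
  have h4 := h _ h2 h3
  have h5 : (cntR a b c (e k - e g) y' x : ℝ) ≤ (cntR a b c (e k - e g) y x : ℝ) := by
    exact_mod_cast cntR_mono a b c _ hy
  linarith

open Classical in
theorem nogR_of {T : ℕ} (e : Fin T → ℕ) (a b c : ℤ) (R : ℕ)
    (he : ∀ g h : Fin T, g < h → 1 ≤ e h - e g ∧ e h - e g ≤ R)
    (h : ∀ j : ℕ, 1 ≤ j → j ≤ R → ¬ GoodEq a b c j) : NoGR 1 e a b c := by
  rintro ⟨S, hS, hcl⟩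
  obtain ⟨g, hg, k, hk, hgk⟩ := two_of_card S hS
  obtain ⟨h2, h3⟩ := he g k hgk
  exact h _ h2 h3 (hcl g hg k hk hgk)

/-- the integers with `Q0` and the same without zero -/
theorem drop_zero (a b : ℕ) (ha : 1 ≤ a) (u : ℤ) (H : ℕ) (hH : 4 ≤ H)
    (i1 : DecidablePred (fun c : ℤ => Q0 a b c))
    (i2 : DecidablePred (fun c : ℤ => Q0 a b c ∧ c ≠ 0)) :
    (((@Finset.filter ℤ (fun c : ℤ => Q0 a b c) i1 (Ioc u (u + H))).card : ℕ) : ℝ) ≤
      2 * (((@Finset.filter ℤ (fun c : ℤ => Q0 a b c ∧ c ≠ 0) i2 (Ioc u (u + H))).card : ℕ) : ℝ) := by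
  set A := @Finset.filter ℤ (fun c : ℤ => Q0 a b c) i1 (Ioc u (u + H)) with hA
  set B := @Finset.filter ℤ (fun c : ℤ => Q0 a b c ∧ c ≠ 0) i2 (Ioc u (u + H)) with hB
  have h1 : A.card ≤ 2 * B.card := by
    by_cases h0 : Q0 a b 0
    · have hau : (a : ℤ) = 1 := by
        have h2 := isCoprime_zero_right.1 h0.1
        rcases Int.isUnit_iff.1 h2 with h3 | h3
        · exact h3
        · omega
      have hbu : (b : ℤ) = 1 := by
        have h2 := isCoprime_zero_right.1 h0.2.1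
        rcases Int.isUnit_iff.1 h2 with h3 | h3
        · exact h3
        · omega
      have h2 : ∀ c : ℤ, Even c → Q0 a b c := by
        intro c hc
        refine ⟨?_, ?_, ?_⟩
        · rw [hau]; exact isCoprime_one_left
        · rw [hbu]; exact isCoprime_one_left
        · rintro ⟨-, -, h4⟩
          exact (Int.not_even_iff_odd.2 h4) hc
      have h3 : ∃ c : ℤ, c ∈ B := by
        rcases Int.even_or_odd' u with ⟨k, hk | hk⟩
        · by_cases h5 : k = -1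
          · refine ⟨u + 4, mem_filter.2 ⟨mem_Ioc.2 ⟨by omega, by omega⟩, h2 _ ⟨k + 2, by omega⟩,
              by omega⟩⟩
          · refine ⟨u + 2, mem_filter.2 ⟨mem_Ioc.2 ⟨by omega, by omega⟩, h2 _ ⟨k + 1, by omega⟩,
              by omega⟩⟩
        · by_cases h5 : k = -1
          · refine ⟨u + 3, mem_filter.2 ⟨mem_Ioc.2 ⟨by omega, by omega⟩, h2 _ ⟨k + 2, by omega⟩,
              by omega⟩⟩
          · refine ⟨u + 1, mem_filter.2 ⟨mem_Ioc.2 ⟨by omega, by omega⟩, h2 _ ⟨k + 1, by omega⟩,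
              by omega⟩⟩
      have h4 : 1 ≤ B.card := by
        obtain ⟨c, hc⟩ := h3
        exact card_pos.2 ⟨c, hc⟩
      have h5 : A ⊆ insert 0 B := by
        intro c hc
        obtain ⟨h6, h7⟩ := mem_filter.1 hc
        by_cases h8 : c = 0
        · rw [h8]; exact mem_insert_self _ _
        · exact mem_insert_of_mem (mem_filter.2 ⟨h6, h7, h8⟩)
      have h6 := (card_le_card h5).trans (card_insert_le _ _)
      omega
    · have h5 : A ⊆ B := by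
        intro c hc
        obtain ⟨h6, h7⟩ := mem_filter.1 hc
        refine mem_filter.2 ⟨h6, h7, fun h8 => h0 ?_⟩
        rw [h8] at h7
        exact h7
      have h6 := card_le_card h5
      omega
  exact_mod_cast h1

open Classical in
/-- **Almost all constants.** -/
theorem mainR : ∀ ε : ℝ, 0 < ε → ∃ L : ℕ, ∀ a b : ℕ, 1 ≤ a → 1 ≤ b → IsCoprime (a : ℤ) b →
    (∃ C : ℕ, 1 ≤ C ∧ ∀ η : ℝ, 0 < η → η ≤ 1 → ∀ᶠ X : ℕ in atTop, ∀ (u : ℤ) (H : ℕ),
      L * (max a b) ^ 25 ≤ H → (C : ℤ) * (|u| + H) ≤ X →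
      (((Ioc u (u + H)).filter (fun c : ℤ => Q0 a b c ∧ c ≠ 0 ∧ ∀ j : ℕ, 1 ≤ j → j ≤ RR a b c →
        (cntR a b c j (X / C) X : ℝ) < (X : ℝ) ^ (1 - η))).card : ℝ) ≤
      ε * (((Ioc u (u + H)).filter (fun c : ℤ => Q0 a b c ∧ c ≠ 0)).card : ℝ)) ∧
    ∀ (u : ℤ) (H : ℕ), L * (max a b) ^ 25 ≤ H →
      (((Ioc u (u + H)).filter (fun c : ℤ => Q0 a b c ∧ c ≠ 0 ∧ ∀ j : ℕ, 1 ≤ j → j ≤ RR a b c →
        ¬ GoodEq a b c j)).card : ℝ) ≤
      ε * (((Ioc u (u + H)).filter (fun c : ℤ => Q0 a b c ∧ c ≠ 0)).card : ℝ) := by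
  obtain ⟨c, hc, -, hcore⟩ := coreR
  intro ε hε
  obtain ⟨L0, h0⟩ := hcore 4 1 (four_lt hc) 4 E0 (by norm_num) E0_mono E0_le (ε / 4) (by positivity)
  obtain ⟨L1, h1⟩ := hcore 4 1 (four_lt hc) 4 E1 (by norm_num) E1_mono E1_le (ε / 4) (by positivity)
  refine ⟨L0 + L1 + 4, fun a b ha hb hab => ?_⟩
  obtain ⟨C0, hC0, h0⟩ := h0 a b (max a b) ha hb (le_max_left _ _) (le_max_right _ _) hab
  obtain ⟨C1, hC1, h1⟩ := h1 a b (max a b) ha hb (le_max_left _ _) (le_max_right _ _) hab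
  have e25 : (4 + 1) ^ 2 = 25 := by norm_num
  rw [e25] at h0 h1
  have hmax : 1 ≤ (max a b) ^ 25 := Nat.one_le_pow _ _ (le_trans ha (le_max_left _ _))
  have hLH0 : ∀ H : ℕ, (L0 + L1 + 4) * (max a b) ^ 25 ≤ H → L0 * (max a b) ^ 25 ≤ H := fun H h =>
    le_trans (Nat.mul_le_mul_right _ (by omega)) h
  have hLH1 : ∀ H : ℕ, (L0 + L1 + 4) * (max a b) ^ 25 ≤ H → L1 * (max a b) ^ 25 ≤ H := fun H h =>
    le_trans (Nat.mul_le_mul_right _ (by omega)) h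
  have hLH4 : ∀ H : ℕ, (L0 + L1 + 4) * (max a b) ^ 25 ≤ H → 4 ≤ H := fun H h =>
    le_trans (by nlinarith) h
  have hcmp : ∀ (u : ℤ) (H : ℕ), 4 ≤ H →
      ε / 4 * (((Ioc u (u + H)).filter (fun x : ℤ => Q0 a b x)).card : ℝ) ≤
      ε / 2 * (((Ioc u (u + H)).filter (fun c : ℤ => Q0 a b c ∧ c ≠ 0)).card : ℝ) := by
    intro u H hH
    have h3 : ε / 2 * (((Ioc u (u + H)).filter (fun c : ℤ => Q0 a b c ∧ c ≠ 0)).card : ℝ) =
        ε / 4 * (2 * (((Ioc u (u + H)).filter (fun c : ℤ => Q0 a b c ∧ c ≠ 0)).card : ℝ)) := by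
      ring
    rw [h3]
    exact mul_le_mul_of_nonneg_left (drop_zero a b ha u H hH _ _) (by positivity)
  have e1 : ∀ B : ℝ, ε * B = ε / 2 * B + ε / 2 * B := fun B => by ring
  refine ⟨⟨C0 * C1, Nat.mul_pos hC0 hC1, fun η hη hη1 => ?_⟩, fun u H hH => ?_⟩
  · filter_upwards [h0 η hη hη1, h1 η hη hη1] with X hX0 hX1 u H hH hCX
    have hnn : (0 : ℤ) ≤ |u| + H := by positivity
    have hX0 := (hX0 u H (hLH0 H hH) (by
      refine le_trans (mul_le_mul_of_nonneg_right ?_ hnn) hCX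
      exact_mod_cast Nat.le_mul_of_pos_right _ hC1)).trans (hcmp u H (hLH4 H hH))
    have hX1 := (hX1 u H (hLH1 H hH) (by
      refine le_trans (mul_le_mul_of_nonneg_right ?_ hnn) hCX
      exact_mod_cast Nat.le_mul_of_pos_left _ hC0)).trans (hcmp u H (hLH4 H hH))
    rw [e1]
    refine card_two _ _ _ _ _ ?_ hX0 hX1
    intro x hx
    obtain ⟨hxI, hxQ, hx0, hR⟩ := mem_filter.1 hx
    simp only [mem_filter]
    by_cases h3 : (3 : ℤ) ∣ (a : ℤ) - b ∧ ¬ (3 : ℤ) ∣ x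
    · right
      rw [RR, if_pos h3] at hR
      refine ⟨hxI, hxQ, hx0, miss1, noclR_of E1 a b x 4 _ _ _ _ ?_ E1_diff hR⟩
      rw [Nat.mul_comm]
      exact mul_div_cast hC0 X
    · left
      rw [RR, if_neg h3] at hR
      exact ⟨hxI, hxQ, hx0, miss0 h3, noclR_of E0 a b x 3 _ _ _ _ (mul_div_cast hC1 X) E0_diff hR⟩
  · have p0 := passR (Ioc u (u + H)) 4 1 a b E0
      (fun x => Q0 a b x ∧ x ≠ 0 ∧ Miss E0 a b x) C0
      (ε / 4 * (((Ioc u (u + H)).filter (fun x : ℤ => Q0 a b x)).card : ℝ)) (by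
        intro η hη hη1
        filter_upwards [h0 η hη hη1, eventually_ge_atTop (C0 * (|u| + H)).toNat] with X hX hX2
        refine le_trans (le_of_eq ?_) (hX u H (hLH0 H hH) (by omega))
        congr 2
        ext x
        simp only [mem_filter, and_assoc])
    have p1 := passR (Ioc u (u + H)) 4 1 a b E1
      (fun x => Q0 a b x ∧ x ≠ 0 ∧ Miss E1 a b x) C1
      (ε / 4 * (((Ioc u (u + H)).filter (fun x : ℤ => Q0 a b x)).card : ℝ)) (by
        intro η hη hη1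
        filter_upwards [h1 η hη hη1, eventually_ge_atTop (C1 * (|u| + H)).toNat] with X hX hX2
        refine le_trans (le_of_eq ?_) (hX u H (hLH1 H hH) (by omega))
        congr 2
        ext x
        simp only [mem_filter, and_assoc])
    rw [e1]
    refine card_two _ _ _ _ _ ?_ (p0.trans (hcmp u H (hLH4 H hH)))
      (p1.trans (hcmp u H (hLH4 H hH)))
    intro x hx
    obtain ⟨hxI, hxQ, hx0, hR⟩ := mem_filter.1 hx
    simp only [mem_filter]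
    by_cases h3 : (3 : ℤ) ∣ (a : ℤ) - b ∧ ¬ (3 : ℤ) ∣ x
    · right
      rw [RR, if_pos h3] at hR
      exact ⟨hxI, ⟨hxQ, hx0, miss1⟩, nogR_of E1 a b x 4 E1_diff hR⟩
    · left
      rw [RR, if_neg h3] at hR
      exact ⟨hxI, ⟨hxQ, hx0, miss0 h3⟩, nogR_of E0 a b x 3 E0_diff hR⟩

end Pool.Agent.Y863.AR
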