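import Mathlib
import Pool.Agent.Y863.AR.FinR

/-!
# Almost all even differences
-/

set_option autoImplicit false
set_option maxHeartbeats 400000

namespace Pool.Agent.Y863.AR

open Finset Filter Topology Pool.Agent.W25.IT Pool.Agent.W25.IT.Rat Pool.Agent.Y863.AA
  Pool.Agent.H732R3.BigQ

/-- the number of the primes `q`, `y ≤ q ≤ x`, such that `q + h` is prime -/
noncomputable def dif (h : ℕ) (y x : ℝ) : ℕ :=
  {q : ℕ | (q.Prime ∧ (q + h).Prime) ∧ y ≤ q ∧ (q : ℝ) ≤ x}.ncard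

/-- `3` if `3 ∣ k`, otherwise `4` -/
def R3 (k : ℕ) : ℕ := if 3 ∣ k then 3 else 4

theorem sr_one (j : ℕ) : sr 1 1 j = j := by
  unfold sr
  simp

theorem dif_eq (k j : ℕ) (y x : ℝ) :
    cntR ((1 : ℕ) : ℤ) ((1 : ℕ) : ℤ) ((2 * k : ℕ) : ℤ) j y x = dif (2 * (j * k)) y x := by
  unfold cntR PR dif
  congr 1
  ext q
  constructor
  · rintro ⟨⟨h1, p, hp, h2⟩, h3⟩
    refine ⟨⟨h1, ?_⟩, h3⟩
    have h4 : q + 2 * (j * k) = p := by
      rw [cj_eq, Nat.cast_one, sr_one, one_pow] at h2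
      have : ((q + 2 * (j * k) : ℕ) : ℤ) = (p : ℤ) := by
        push_cast at h2 ⊢
        linear_combination -h2
      exact_mod_cast this
    rw [h4]; exact hp
  · rintro ⟨⟨h1, h2⟩, h3⟩
    refine ⟨⟨h1, _, h2, ?_⟩, h3⟩
    rw [cj_eq, Nat.cast_one, sr_one, one_pow]
    push_cast
    ring

theorem RR_one (k : ℕ) : RR ((1 : ℕ) : ℤ) ((1 : ℕ) : ℤ) ((2 * k : ℕ) : ℤ) = R3 k := by
  unfold RR R3
  have h3 : (3 : ℤ) ∣ ((2 * k : ℕ) : ℤ) ↔ 3 ∣ k := by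
    constructor
    · intro h
      have h1 : 3 ∣ 2 * k := by exact_mod_cast h
      exact (Nat.Coprime.dvd_mul_left (by norm_num : Nat.Coprime 3 2)).1 h1
    · intro h
      exact_mod_cast Dvd.dvd.mul_left h 2
  by_cases h : 3 ∣ k
  · rw [if_pos h, if_neg]
    rintro ⟨-, h2⟩
    exact h2 (h3.2 h)
  · rw [if_neg h, if_pos]
    exact ⟨by norm_num, fun h2 => h (h3.1 h2)⟩

theorem Q0_one (c : ℤ) : Q0 ((1 : ℕ) : ℤ) ((1 : ℕ) : ℤ) c ↔ Even c := by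
  unfold Q0
  rw [Nat.cast_one]
  constructor
  · rintro ⟨-, -, h⟩
    rw [← Int.not_odd_iff_even]
    intro h1
    exact h ⟨odd_one, odd_one, h1⟩
  · intro h
    refine ⟨isCoprime_one_left, isCoprime_one_left, fun h1 => ?_⟩
    exact (Int.not_odd_iff_even.2 h) h1.2.2

theorem card_bad (u H : ℕ) (P : ℕ → Prop) (Q : ℤ → Prop) (i1 : DecidablePred P)
    (i2 : DecidablePred Q) (h : ∀ k : ℕ, 0 < k → P k → Q ((2 * k : ℕ) : ℤ)) :
    (@Finset.filter ℕ P i1 (Ioc u (u + H))).card ≤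
      (@Finset.filter ℤ Q i2 (Ioc ((2 * u : ℕ) : ℤ) ((2 * u : ℕ) + (2 * H : ℕ)))).card := by
  refine card_le_card_of_injOn (fun k : ℕ => ((2 * k : ℕ) : ℤ)) ?_ ?_
  · intro k hk
    obtain ⟨h1, h2⟩ := mem_filter.1 (mem_coe.1 hk)
    rw [mem_Ioc] at h1
    refine mem_coe.2 (mem_filter.2 ⟨?_, h k (by omega) h2⟩)
    rw [mem_Ioc]
    constructor <;> push_cast <;> omega
  · intro k _ l _ hkl
    have : ((2 * k : ℕ) : ℤ) = ((2 * l : ℕ) : ℤ) := hkl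
    have h1 : 2 * k = 2 * l := by exact_mod_cast this
    omega

theorem card_even (u H : ℕ) (Q : ℤ → Prop) (i2 : DecidablePred Q) (h : ∀ c : ℤ, Q c → Even c) :
    (@Finset.filter ℤ Q i2 (Ioc ((2 * u : ℕ) : ℤ) ((2 * u : ℕ) + (2 * H : ℕ)))).card ≤ H := by
  have h1 : (@Finset.filter ℤ Q i2 (Ioc ((2 * u : ℕ) : ℤ) ((2 * u : ℕ) + (2 * H : ℕ)))).card ≤
      (Ioc (u : ℤ) (u + H)).card := by
    refine card_le_card_of_injOn (fun c : ℤ => c / 2) ?_ ?_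
    · intro c hc
      obtain ⟨h2, h3⟩ := mem_filter.1 (mem_coe.1 hc)
      obtain ⟨r, hr⟩ := h c h3
      rw [mem_Ioc] at h2
      rw [mem_coe, mem_Ioc]
      push_cast at h2
      constructor
      · show (u : ℤ) < c / 2
        omega
      · show c / 2 ≤ (u : ℤ) + H
        omega
    · intro c hc d hd hcd
      obtain ⟨-, h3⟩ := mem_filter.1 (mem_coe.1 hc)
      obtain ⟨-, h4⟩ := mem_filter.1 (mem_coe.1 hd)
      obtain ⟨r, hr⟩ := h c h3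
      obtain ⟨s, hs⟩ := h d h4
      have : c / 2 = d / 2 := hcd
      omega
  rw [Int.card_Ioc] at h1
  omega

open Classical in
/-- **Almost all even differences.** -/
theorem diffs : ∀ ε : ℝ, 0 < ε → ∃ L C : ℕ, 1 ≤ C ∧
    (∀ η : ℝ, 0 < η → η ≤ 1 → ∀ᶠ X : ℕ in atTop, ∀ u H : ℕ, L ≤ H → C * (u + H) ≤ X →
      (((Ioc u (u + H)).filter (fun k : ℕ => ∀ j : ℕ, 1 ≤ j → j ≤ R3 k →
        (dif (2 * (j * k)) (X / C) X : ℝ) < (X : ℝ) ^ (1 - η))).card : ℝ) ≤ ε * H) ∧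
    ∀ u H : ℕ, L ≤ H →
      (((Ioc u (u + H)).filter (fun k : ℕ => ∀ j : ℕ, 1 ≤ j → j ≤ R3 k →
        ¬ Big {q : ℕ | q.Prime ∧ (q + 2 * (j * k)).Prime})).card : ℝ) ≤ ε * H := by
  intro ε hε
  obtain ⟨L, hL⟩ := mainR ε hε
  obtain ⟨⟨C, hC, h1⟩, h2⟩ := hL 1 1 le_rfl le_rfl (by rw [Nat.cast_one]; exact isCoprime_one_left)
  have hmax : L * (max 1 1) ^ 25 = L := by simp
  rw [hmax] at h1 h2
  have hev : ∀ u H : ℕ, ε * (((Ioc ((2 * u : ℕ) : ℤ) ((2 * u : ℕ) + (2 * H : ℕ))).filter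
      (fun c : ℤ => Q0 ((1 : ℕ) : ℤ) ((1 : ℕ) : ℤ) c ∧ c ≠ 0)).card : ℝ) ≤ ε * H := by
    intro u H
    refine mul_le_mul_of_nonneg_left ?_ hε.le
    rw [Nat.cast_le]
    exact card_even u H _ _ (fun c hc => (Q0_one c).1 hc.1)
  have hq : ∀ k : ℕ, 0 < k → Q0 ((1 : ℕ) : ℤ) ((1 : ℕ) : ℤ) ((2 * k : ℕ) : ℤ) ∧
      ((2 * k : ℕ) : ℤ) ≠ 0 := by
    intro k hk
    refine ⟨(Q0_one _).2 ⟨k, by push_cast; ring⟩, ?_⟩
    exact_mod_cast (by omega : 2 * k ≠ 0)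
  refine ⟨L, 2 * C, by omega, fun η hη hη1 => ?_, fun u H hH => ?_⟩
  · filter_upwards [h1 η hη hη1] with X hX u H hH hCX
    have h3 := hX ((2 * u : ℕ) : ℤ) (2 * H) (by omega) (by
      rw [abs_of_nonneg (Nat.cast_nonneg _)]
      have : C * (2 * u + 2 * H) ≤ X := by
        calc C * (2 * u + 2 * H) = 2 * C * (u + H) := by ring
          _ ≤ X := hCX
      exact_mod_cast this)
    refine le_trans ?_ (h3.trans (hev u H))
    rw [Nat.cast_le]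
    refine card_bad u H _ _ _ _ ?_
    intro k hk0 hk
    obtain ⟨h4, h5⟩ := hq k hk0
    refine ⟨h4, h5, fun j hj1 hj2 => ?_⟩
    rw [RR_one] at hj2
    refine lt_of_le_of_lt ?_ (hk j hj1 hj2)
    rw [dif_eq, Nat.cast_le]
    refine Set.ncard_le_ncard ?_ ?_
    · intro q hq
      refine ⟨hq.1, le_trans ?_ hq.2.1, hq.2.2⟩
      rw [Nat.mul_comm]
      exact mul_div_cast (by norm_num) X
    · refine (Set.finite_le_nat ⌊(X : ℝ)⌋₊).subset fun q hq => ?_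
      exact Nat.le_floor hq.2.2
  · have h3 := h2 ((2 * u : ℕ) : ℤ) (2 * H) (by omega)
    refine le_trans ?_ (h3.trans (hev u H))
    rw [Nat.cast_le]
    refine card_bad u H _ _ _ _ ?_
    intro k hk0 hk
    obtain ⟨h4, h5⟩ := hq k hk0
    refine ⟨h4, h5, fun j hj1 hj2 hg => ?_⟩
    rw [RR_one] at hj2
    refine hk j hj1 hj2 ?_
    have h6 := hg.2
    intro η hη
    refine (h6 η hη).mono fun x hx => ?_
    refine hx.trans ?_
    rw [Nat.cast_le]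
    refine Set.ncard_le_ncard ?_ (fin_le _ _)
    rintro q ⟨⟨hq1, p, hp, hpq⟩, hq2⟩
    refine ⟨⟨hq1, ?_⟩, hq2⟩
    have h7 : q + 2 * (j * k) = p := by
      have h8 := sr_one j
      unfold sr at h8
      rw [Nat.cast_one, h8, one_pow] at hpq
      have : ((q + 2 * (j * k) : ℕ) : ℤ) = (p : ℤ) := by
        push_cast at hpq ⊢
        linear_combination -hpq
      exact_mod_cast this
    rw [h7]; exact hp

end Pool.Agent.Y863.AR
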